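import Pool.Agent.Helper21.LQ.Defs

set_option autoImplicit false

/-!
# LQ, module PART

Fractional matchings of integral size are convex combinations of matchings of that size
(Birkhoff's theorem, with dummy rows and dummy columns).
-/

namespace Pool.Agent.Helper21.LQ

open Finset

section
variable {R Γ : Type} [Fintype R] [DecidableEq R] [Fintype Γ] [DecidableEq Γ]

/-- The padded matrix: real rows and `b` dummy rows, real columns and `a` dummy columns. -/
noncomputable def part_M (y : R → Γ → ℝ) (a b : ℕ) : R ⊕ Fin b → Γ ⊕ Fin a → ℝ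
  | Sum.inl r, Sum.inl γ => y r γ
  | Sum.inl r, Sum.inr _ => (1 - ∑ γ, y r γ) / a
  | Sum.inr _, Sum.inl γ => (1 - ∑ r, y r γ) / b
  | Sum.inr _, Sum.inr _ => 0

omit [DecidableEq R] [DecidableEq Γ] in
theorem part_nonneg (y : R → Γ → ℝ) (a b : ℕ) (hy : ∀ r γ, 0 ≤ y r γ)
    (hr : ∀ r, ∑ γ, y r γ ≤ 1) (hc : ∀ γ, ∑ r, y r γ ≤ 1) (i : R ⊕ Fin b) (j : Γ ⊕ Fin a) :
    0 ≤ part_M y a b i j := by
  rcases i with r | i <;> rcases j with γ | j <;> simp only [part_M]
  · exact hy r γ
  · exact div_nonneg (by linarith [hr r]) (Nat.cast_nonneg _)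
  · exact div_nonneg (by linarith [hc γ]) (Nat.cast_nonneg _)
  · exact le_rfl

/-- Sum of deficits. -/
theorem part_deficit {A B : Type} [Fintype A] [Fintype B] (y : A → B → ℝ) (h a : ℕ)
    (ha : h + a = Fintype.card A) (ht : ∑ r, ∑ γ, y r γ = h) :
    ∑ r, (1 - ∑ γ, y r γ) = a := by
  rw [Finset.sum_sub_distrib, ht]
  simp only [Finset.sum_const, Finset.card_univ, nsmul_eq_mul, mul_one]
  rw [← ha]
  push_cast
  ring

/-- A row of the padded matrix sums to one. -/
theorem part_row {A B : Type} [Fintype A] [Fintype B] (y : A → B → ℝ) (h a : ℕ)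
    (ha : h + a = Fintype.card A) (ht : ∑ r, ∑ γ, y r γ = h)
    (hr : ∀ r, ∑ γ, y r γ ≤ 1) (r : A) :
    ∑ γ, y r γ + ∑ _j : Fin a, (1 - ∑ γ, y r γ) / a = 1 := by
  have hd := part_deficit y h a ha ht
  rcases Nat.eq_zero_or_pos a with h0 | h0
  · subst h0
    have hz : ∀ r ∈ (Finset.univ : Finset A), (1 - ∑ γ, y r γ) = 0 := by
      apply (Finset.sum_eq_zero_iff_of_nonneg _).1
      · rw [hd]; simp
      · intro r _; linarith [hr r]
    have := hz r (Finset.mem_univ r)
    simp only [Finset.univ_eq_empty, Finset.sum_empty, add_zero]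
    linarith
  · have hpos : (0 : ℝ) < a := by exact_mod_cast h0
    simp only [Finset.sum_const, Finset.card_univ, Fintype.card_fin, nsmul_eq_mul]
    field_simp
    ring

theorem part_main (y : R → Γ → ℝ) (h a b : ℕ) (ha : h + a = Fintype.card R)
    (hb : h + b = Fintype.card Γ)
    (hy : ∀ r γ, 0 ≤ y r γ) (hr : ∀ r, ∑ γ, y r γ ≤ 1) (hc : ∀ γ, ∑ r, y r γ ≤ 1)
    (ht : ∑ r, ∑ γ, y r γ = h) :
    ∃ p : (R → Option Γ) → ℝ, IsDist p ∧ Marg p y ∧ (∀ f, p f ≠ 0 → Inj f) ∧
      ∀ f, p f ≠ 0 → (univ.filter (fun r => f r ≠ none)).card = h := by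
  classical
  have ht' : ∑ γ, ∑ r, y r γ = h := by rw [Finset.sum_comm]; exact ht
  have hcard : Fintype.card (R ⊕ Fin b) = Fintype.card (Γ ⊕ Fin a) := by
    simp only [Fintype.card_sum, Fintype.card_fin]
    omega
  let e : (R ⊕ Fin b) ≃ (Γ ⊕ Fin a) := Fintype.equivOfCardEq hcard
  let M : Matrix (R ⊕ Fin b) (R ⊕ Fin b) ℝ := fun i j => part_M y a b i (e j)
  have hM : M ∈ doublyStochastic ℝ (R ⊕ Fin b) := by
    rw [mem_doublyStochastic_iff_sum]
    refine ⟨fun i j => part_nonneg y a b hy hr hc i (e j), ?_, ?_⟩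
    · intro i
      have h1 : ∑ j, M i j = ∑ j, part_M y a b i j := Equiv.sum_comp e (fun j => part_M y a b i j)
      rw [h1, Fintype.sum_sum_type]
      rcases i with r | i
      · simp only [part_M]
        exact part_row y h a ha ht hr r
      · simp only [part_M]
        rw [← Finset.sum_div, part_deficit (fun γ r => y r γ) h b hb ht']
        have hb0 : (b : ℝ) ≠ 0 := by
          have : 0 < b := lt_of_le_of_lt (Nat.zero_le _) i.2
          positivity
        rw [Finset.sum_const_zero, add_zero, div_self hb0]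
    · intro j
      have h1 : ∑ i, M i j = ∑ i, part_M y a b i (e j) := rfl
      rw [h1, Fintype.sum_sum_type]
      rcases e j with γ | j
      · simp only [part_M]
        exact part_row (fun γ r => y r γ) h b hb ht' hc γ
      · simp only [part_M]
        rw [← Finset.sum_div, part_deficit y h a ha ht]
        have ha0 : (a : ℝ) ≠ 0 := by
          have : 0 < a := lt_of_le_of_lt (Nat.zero_le _) j.2
          positivity
        rw [Finset.sum_const_zero, add_zero, div_self ha0]
  obtain ⟨w, hw0, hw1, hwM⟩ := exists_eq_sum_perm_of_mem_doublyStochastic hM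
  -- entries
  have hent : ∀ i j, part_M y a b i (e j) = ∑ σ : Equiv.Perm (R ⊕ Fin b),
      (if σ i = j then w σ else 0) := by
    intro i j
    have h1 : M i j = ∑ σ : Equiv.Perm (R ⊕ Fin b), (w σ • σ.permMatrix ℝ) i j := by
      rw [← hwM, Matrix.sum_apply]
    change M i j = _
    rw [h1]
    refine Finset.sum_congr rfl fun σ _ => ?_
    simp only [Matrix.smul_apply, Equiv.Perm.permMatrix, PEquiv.toMatrix_apply,
      Equiv.toPEquiv_apply, Option.mem_def, Option.some.injEq, smul_eq_mul, mul_ite, mul_one,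
      mul_zero]
  -- the partial map of a permutation
  let F : Equiv.Perm (R ⊕ Fin b) → R → Option Γ := fun σ r => (e (σ (Sum.inl r))).getLeft?
  have hF : ∀ σ r γ, F σ r = some γ ↔ σ (Sum.inl r) = e.symm (Sum.inl γ) := by
    intro σ r γ
    simp only [F, Sum.getLeft?_eq_some_iff]
    rw [Equiv.eq_symm_apply]
  have hFn : ∀ σ r, F σ r = none ↔ ∃ d, σ (Sum.inl r) = e.symm (Sum.inr d) := by
    intro σ r
    simp only [F, Sum.getLeft?_eq_none_iff, Sum.isRight_iff, Equiv.eq_symm_apply]
  let p : (R → Option Γ) → ℝ := fun f => ∑ σ, (if F σ = f then w σ else 0)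
  have hsupp : ∀ f, p f ≠ 0 → ∃ σ, F σ = f ∧ 0 < w σ := by
    intro f hf
    obtain ⟨σ, -, hσ⟩ := Finset.exists_ne_zero_of_sum_ne_zero hf
    by_cases h1 : F σ = f
    · rw [if_pos h1] at hσ
      exact ⟨σ, h1, lt_of_le_of_ne (hw0 σ) (Ne.symm hσ)⟩
    · rw [if_neg h1] at hσ
      exact absurd rfl hσ
  refine ⟨p, ⟨?_, ?_⟩, ?_, ?_, ?_⟩
  · intro f
    exact Finset.sum_nonneg fun σ _ => by split_ifs; exacts [hw0 σ, le_rfl]
  · simp only [p]
    rw [Finset.sum_comm]
    rw [← hw1]
    refine Finset.sum_congr rfl fun σ _ => ?_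
    rw [Finset.sum_ite_eq Finset.univ (F σ) (fun _ => w σ)]
    simp
  · intro r γ
    have h1 : y r γ = ∑ σ : Equiv.Perm (R ⊕ Fin b), (if F σ r = some γ then w σ else 0) := by
      have := hent (Sum.inl r) (e.symm (Sum.inl γ))
      rw [Equiv.apply_symm_apply] at this
      simp only [part_M] at this
      rw [this]
      refine Finset.sum_congr rfl fun σ _ => ?_
      by_cases h2 : F σ r = some γ
      · rw [if_pos h2, if_pos ((hF σ r γ).1 h2)]
      · rw [if_neg h2, if_neg (fun h3 => h2 ((hF σ r γ).2 h3))]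
    rw [h1]
    have h2 : ∀ f : R → Option Γ, (if f r = some γ then p f else 0) =
        ∑ σ : Equiv.Perm (R ⊕ Fin b), (if F σ = f then (if F σ r = some γ then w σ else 0) else 0) := by
      intro f
      by_cases h3 : f r = some γ
      · rw [if_pos h3]
        refine Finset.sum_congr rfl fun σ _ => ?_
        by_cases h4 : F σ = f
        · rw [if_pos h4, if_pos h4, if_pos (by rw [h4]; exact h3)]
        · rw [if_neg h4, if_neg h4]
      · rw [if_neg h3]
        symm
        refine Finset.sum_eq_zero fun σ _ => ?_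
        by_cases h4 : F σ = f
        · rw [if_pos h4, if_neg (by rw [h4]; exact h3)]
        · rw [if_neg h4]
    rw [Finset.sum_congr rfl (fun f _ => h2 f), Finset.sum_comm]
    refine Finset.sum_congr rfl fun σ _ => ?_
    rw [Finset.sum_ite_eq Finset.univ (F σ) (fun _ => if F σ r = some γ then w σ else 0)]
    simp
  · intro f hf
    obtain ⟨σ, rfl, -⟩ := hsupp f hf
    intro r r' γ h1 h2
    have h3 := (hF σ r γ).1 h1
    have h4 := (hF σ r' γ).1 h2
    have := σ.injective (h3.trans h4.symm)
    exact Sum.inl_injective this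
  · intro f hf
    obtain ⟨σ, rfl, hσ⟩ := hsupp f hf
    -- dummy rows are not matched to dummy columns
    have hdd : ∀ (i : Fin b) (d : Fin a), σ (Sum.inr i) ≠ e.symm (Sum.inr d) := by
      intro i d hid
      have h1 := hent (Sum.inr i) (e.symm (Sum.inr d))
      rw [Equiv.apply_symm_apply] at h1
      simp only [part_M] at h1
      have h2 : ∀ σ' ∈ (Finset.univ : Finset (Equiv.Perm (R ⊕ Fin b))),
          (if σ' (Sum.inr i) = e.symm (Sum.inr d) then w σ' else 0) = 0 := by
        apply (Finset.sum_eq_zero_iff_of_nonneg _).1 h1.symm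
        intro σ' _
        split_ifs; exacts [hw0 σ', le_rfl]
      have h3 := h2 σ (Finset.mem_univ _)
      rw [if_pos hid] at h3
      exact absurd h3 hσ.ne'
    -- the rows which are not matched
    have hcount : (Finset.univ.filter (fun r => F σ r = none)).card = a := by
      have : (Finset.univ : Finset (Fin a)).card = a := by simp
      rw [← this]
      symm
      have hex : ∀ d : Fin a, ∃ r : R, σ (Sum.inl r) = e.symm (Sum.inr d) := by
        intro d
        obtain ⟨i, hi⟩ := σ.surjective (e.symm (Sum.inr d))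
        rcases i with r | i
        · exact ⟨r, hi⟩
        · exact absurd hi (hdd i d)
      choose g hg using hex
      refine Finset.card_bij (fun d _ => g d) ?_ ?_ ?_
      · intro d _
        rw [Finset.mem_filter]
        exact ⟨Finset.mem_univ _, (hFn σ (g d)).2 ⟨d, hg d⟩⟩
      · intro d _ d' _ hdd'
        have h1 := hg d
        rw [hdd', hg d'] at h1
        exact (Sum.inr_injective (e.symm.injective h1)).symm
      · intro r hr'
        rw [Finset.mem_filter] at hr'
        obtain ⟨d, hd⟩ := (hFn σ r).1 hr'.2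
        refine ⟨d, Finset.mem_univ _, ?_⟩
        have := σ.injective ((hg d).trans hd.symm)
        exact Sum.inl_injective this
    have hsum : (Finset.univ.filter (fun r => F σ r = none)).card +
        (Finset.univ.filter (fun r => ¬ F σ r = none)).card = Fintype.card R := by
      rw [Finset.card_filter_add_card_filter_not, Finset.card_univ]
    have : (Finset.univ.filter (fun r => F σ r ≠ none)).card =
        (Finset.univ.filter (fun r => ¬ F σ r = none)).card := rfl
    rw [this]
    omega

end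

theorem st_PART : ST_PART := by
  intro R Γ _ _ _ _ y h hy hr hc ht
  have h1 : (h : ℝ) ≤ Fintype.card R := by
    rw [← ht]
    calc ∑ r, ∑ γ, y r γ ≤ ∑ _r : R, (1 : ℝ) := Finset.sum_le_sum fun r _ => hr r
      _ = Fintype.card R := by simp
  have h2 : (h : ℝ) ≤ Fintype.card Γ := by
    rw [← ht, Finset.sum_comm]
    calc ∑ γ, ∑ r, y r γ ≤ ∑ _γ : Γ, (1 : ℝ) := Finset.sum_le_sum fun γ _ => hc γ
      _ = Fintype.card Γ := by simp
  have h1' : h ≤ Fintype.card R := by exact_mod_cast h1
  have h2' : h ≤ Fintype.card Γ := by exact_mod_cast h2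
  exact part_main y h (Fintype.card R - h) (Fintype.card Γ - h) (by omega) (by omega)
    hy hr hc ht

end Pool.Agent.Helper21.LQ
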